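import Pool.Agent.Helper40.PR.Defs

/-!
# Roots of quadratics (piece PR-TK2 of MP_339e9c_an)
-/

namespace PR

namespace TK2

theorem sq_half (z : ℂ) : (z ^ ((1 : ℂ) / 2)) ^ 2 = z := by
  have h := Complex.cpow_nat_inv_pow z (n := 2) two_ne_zero
  rw [one_div]
  exact_mod_cast h

theorem max_mul_min_norm (a b : ℝ) : max a b * min a b = a * b := max_mul_min a b

theorem sq_add_sq_max_min (a b : ℝ) : a ^ 2 + b ^ 2 = max a b ^ 2 + min a b ^ 2 := by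
  rcases le_total a b with h | h
  · rw [max_eq_right h, min_eq_left h]; ring
  · rw [max_eq_left h, min_eq_right h]

end TK2

theorem exists_roots (τ δ : ℂ) : ∃ l1 l2 : ℂ, l1 + l2 = τ ∧ l1 * l2 = δ := by
  refine ⟨(τ + (τ ^ 2 - 4 * δ) ^ ((1 : ℂ) / 2)) / 2, (τ - (τ ^ 2 - 4 * δ) ^ ((1 : ℂ) / 2)) / 2,
    by ring, ?_⟩
  have h := TK2.sq_half (τ ^ 2 - 4 * δ)
  linear_combination (-1 / 4) * h

theorem Rt_eq {τ δ l1 l2 : ℂ} (h1 : l1 + l2 = τ) (h2 : l1 * l2 = δ) :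
    Rt τ δ = max ‖l1‖ ‖l2‖ := by
  have h := TK2.sq_half (τ ^ 2 - 4 * δ)
  unfold Rt
  set w := (τ ^ 2 - 4 * δ) ^ ((1 : ℂ) / 2) with hw
  have hprod : (l1 - (τ + w) / 2) * (l1 - (τ - w) / 2) = 0 := by
    linear_combination (-1 / 4 : ℂ) * h + l1 * h1 - h2
  rcases mul_eq_zero.1 hprod with h0 | h0
  · have e1 : l1 = (τ + w) / 2 := sub_eq_zero.1 h0
    have e2 : l2 = (τ - w) / 2 := by linear_combination h1 - e1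
    rw [e1, e2]
  · have e1 : l1 = (τ - w) / 2 := sub_eq_zero.1 h0
    have e2 : l2 = (τ + w) / 2 := by linear_combination h1 - e1
    rw [e1, e2, max_comm]

theorem norm_det_le (τ δ : ℂ) : ‖δ‖ ≤ Rt τ δ ^ 2 := by
  obtain ⟨l1, l2, h1, h2⟩ := exists_roots τ δ
  rw [Rt_eq h1 h2, ← h2, norm_mul, sq]
  exact mul_le_mul (le_max_left _ _) (le_max_right _ _) (norm_nonneg _)
    ((norm_nonneg _).trans (le_max_left _ _))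

theorem norm_tr_le (τ δ : ℂ) : ‖τ‖ ≤ 2 * Rt τ δ := by
  obtain ⟨l1, l2, h1, h2⟩ := exists_roots τ δ
  rw [Rt_eq h1 h2, ← h1]
  have := norm_add_le l1 l2
  have a := le_max_left ‖l1‖ ‖l2‖
  have b := le_max_right ‖l1‖ ‖l2‖
  linarith

theorem sum_sq_roots {τ δ l1 l2 : ℂ} (h1 : l1 + l2 = τ) (h2 : l1 * l2 = δ) :
    ‖l1‖ ^ 2 + ‖l2‖ ^ 2 = (‖τ‖ ^ 2 + ‖τ ^ 2 - 4 * δ‖) / 2 := by
  have e : τ ^ 2 - 4 * δ = (l1 - l2) ^ 2 := by rw [← h1, ← h2]; ring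
  have p := parallelogram_law_with_norm ℝ l1 l2
  rw [e, norm_pow, ← h1]
  nlinarith [p]

/-- Same `Rt` and same modulus of the determinant: the sum of the squares agrees. -/
theorem Rt_sum_sq {τ δ τ' δ' : ℂ} (hR : Rt τ δ = Rt τ' δ') (hd : ‖δ‖ = ‖δ'‖) :
    ‖τ‖ ^ 2 + ‖τ ^ 2 - 4 * δ‖ = ‖τ'‖ ^ 2 + ‖τ' ^ 2 - 4 * δ'‖ := by
  obtain ⟨l1, l2, h1, h2⟩ := exists_roots τ δ
  obtain ⟨m1, m2, k1, k2⟩ := exists_roots τ' δ'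
  have s := sum_sq_roots h1 h2
  have s' := sum_sq_roots k1 k2
  rw [Rt_eq h1 h2, Rt_eq k1 k2] at hR
  have hp : max ‖l1‖ ‖l2‖ * min ‖l1‖ ‖l2‖ = max ‖m1‖ ‖m2‖ * min ‖m1‖ ‖m2‖ := by
    rw [TK2.max_mul_min_norm, TK2.max_mul_min_norm, ← norm_mul, ← norm_mul, h2, k2, hd]
  have key : ‖l1‖ ^ 2 + ‖l2‖ ^ 2 = ‖m1‖ ^ 2 + ‖m2‖ ^ 2 := by
    rw [TK2.sq_add_sq_max_min ‖l1‖, TK2.sq_add_sq_max_min ‖m1‖]
    have hmin : min ‖l1‖ ‖l2‖ = min ‖m1‖ ‖m2‖ := by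
      by_cases h0 : max ‖l1‖ ‖l2‖ = 0
      · have a1 : min ‖l1‖ ‖l2‖ ≤ max ‖l1‖ ‖l2‖ := min_le_max
        have a2 : min ‖m1‖ ‖m2‖ ≤ max ‖m1‖ ‖m2‖ := min_le_max
        have b1 : 0 ≤ min ‖l1‖ ‖l2‖ := le_min (norm_nonneg _) (norm_nonneg _)
        have b2 : 0 ≤ min ‖m1‖ ‖m2‖ := le_min (norm_nonneg _) (norm_nonneg _)
        rw [h0] at a1 hR
        rw [← hR] at a2
        linarith
      · rw [← hR] at hp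
        exact mul_left_cancel₀ h0 hp
    rw [hR, hmin]
  linarith

theorem Rt_zero_left (δ : ℂ) : Rt 0 δ = √‖δ‖ := by
  obtain ⟨l1, l2, h1, h2⟩ := exists_roots 0 δ
  have e : l2 = -l1 := by linear_combination h1
  rw [Rt_eq h1 h2, e, norm_neg, max_self]
  have : ‖δ‖ = ‖l1‖ ^ 2 := by
    rw [← h2, e, norm_mul, norm_neg]; ring
  rw [this, Real.sqrt_sq (norm_nonneg _)]

theorem Rt_zero_right (τ : ℂ) : Rt τ 0 = ‖τ‖ := by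
  rw [Rt_eq (l1 := τ) (l2 := 0) (by ring) (by ring)]
  simp

theorem Rt_smul (c τ δ : ℂ) : Rt (c * τ) (c ^ 2 * δ) = ‖c‖ * Rt τ δ := by
  obtain ⟨l1, l2, h1, h2⟩ := exists_roots τ δ
  rw [Rt_eq h1 h2, Rt_eq (l1 := c * l1) (l2 := c * l2) (by rw [← h1]; ring) (by rw [← h2]; ring),
    norm_mul, norm_mul, mul_max_of_nonneg _ _ (norm_nonneg c)]

theorem Rt_le (τ δ : ℂ) : Rt τ δ ≤ ‖τ‖ / 2 + √(‖τ‖ ^ 2 / 4 + ‖δ‖) := by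
  have h := TK2.sq_half (τ ^ 2 - 4 * δ)
  unfold Rt
  set w := (τ ^ 2 - 4 * δ) ^ ((1 : ℂ) / 2) with hw
  have hwn : ‖w‖ / 2 ≤ √(‖τ‖ ^ 2 / 4 + ‖δ‖) := by
    apply Real.le_sqrt_of_sq_le
    have h1 : ‖w‖ ^ 2 = ‖τ ^ 2 - 4 * δ‖ := by rw [← norm_pow, h]
    have h2 : ‖τ ^ 2 - 4 * δ‖ ≤ ‖τ‖ ^ 2 + 4 * ‖δ‖ := by
      refine (norm_sub_le _ _).trans ?_
      rw [norm_pow, norm_mul]
      simp
    rw [div_pow, h1]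
    linarith
  have a1 : ‖(τ + w) / 2‖ ≤ ‖τ‖ / 2 + ‖w‖ / 2 := by
    rw [norm_div, Complex.norm_two]
    have := norm_add_le τ w
    linarith
  have a2 : ‖(τ - w) / 2‖ ≤ ‖τ‖ / 2 + ‖w‖ / 2 := by
    rw [norm_div, Complex.norm_two]
    have := norm_sub_le τ w
    linarith
  exact max_le (by linarith) (by linarith)

theorem Rt_phase (τ δ : ℂ) :
    ∃ θ : ℂ, ‖θ‖ = 1 ∧ Rt (θ * τ) δ = ‖τ‖ / 2 + √(‖τ‖ ^ 2 / 4 + ‖δ‖) := by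
  by_cases hτ : τ = 0
  · refine ⟨1, by simp, ?_⟩
    subst hτ
    rw [mul_zero, Rt_zero_left]
    simp
  by_cases hδ : δ = 0
  · refine ⟨1, by simp, ?_⟩
    subst hδ
    rw [one_mul, Rt_zero_right, norm_zero, add_zero]
    have : ‖τ‖ ^ 2 / 4 = (‖τ‖ / 2) ^ 2 := by ring
    rw [this, Real.sqrt_sq (by positivity)]
    ring
  have nτ : (0 : ℝ) < ‖τ‖ := norm_pos_iff.2 hτ
  have nδ : (0 : ℝ) < ‖δ‖ := norm_pos_iff.2 hδ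
  have nτ' : (‖τ‖ : ℂ) ≠ 0 := by exact_mod_cast nτ.ne'
  have nδ' : (‖δ‖ : ℂ) ≠ 0 := by exact_mod_cast nδ.ne'
  set z : ℂ := -δ * (‖τ‖ : ℂ) ^ 2 / ((‖δ‖ : ℂ) * τ ^ 2) with hz
  obtain ⟨θ, hθ⟩ : ∃ θ : ℂ, θ ^ 2 = z := ⟨z ^ ((1 : ℂ) / 2), TK2.sq_half z⟩
  have hzn : ‖z‖ = 1 := by
    rw [hz, norm_div, norm_mul, norm_mul, norm_neg, norm_pow, norm_pow, Complex.norm_real,
      Complex.norm_real, norm_norm, norm_norm]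
    field_simp
  have hθn : ‖θ‖ = 1 := by
    have : ‖θ‖ ^ 2 = 1 := by rw [← norm_pow, hθ, hzn]
    exact (pow_eq_one_iff_of_nonneg (norm_nonneg _) two_ne_zero).1 this
  refine ⟨θ, hθn, ?_⟩
  set s : ℝ := √(‖τ‖ ^ 2 / 4 + ‖δ‖) with hs
  have hs0 : 0 ≤ s := Real.sqrt_nonneg _
  have hs2 : s ^ 2 = ‖τ‖ ^ 2 / 4 + ‖δ‖ := Real.sq_sqrt (by positivity)
  have hs2' : (s : ℂ) ^ 2 = (‖τ‖ : ℂ) ^ 2 / 4 + (‖δ‖ : ℂ) := by exact_mod_cast hs2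
  have hd : (θ * τ) ^ 2 * (‖δ‖ : ℂ) = -δ * (‖τ‖ : ℂ) ^ 2 := by
    rw [mul_pow, hθ, hz]
    field_simp
  rw [Rt_eq (l1 := (θ * τ) * ((1 / 2 + s / ‖τ‖ : ℝ) : ℂ))
    (l2 := (θ * τ) * ((1 / 2 - s / ‖τ‖ : ℝ) : ℂ))]
  · have nθτ : ‖θ * τ‖ = ‖τ‖ := by rw [norm_mul, hθn, one_mul]
    rw [norm_mul (θ * τ), norm_mul (θ * τ), nθτ, Complex.norm_real, Complex.norm_real,
      Real.norm_eq_abs, Real.norm_eq_abs, abs_of_nonneg (by positivity : 0 ≤ 1 / 2 + s / ‖τ‖)]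
    have h3 : |1 / 2 - s / ‖τ‖| ≤ 1 / 2 + s / ‖τ‖ := by
      have : 0 ≤ s / ‖τ‖ := by positivity
      rw [abs_le]
      constructor <;> linarith
    rw [max_eq_left (mul_le_mul_of_nonneg_left h3 nτ.le)]
    field_simp
  · push_cast
    ring
  · push_cast
    have : (θ * τ * (1 / 2 + (s : ℂ) / ‖τ‖)) * (θ * τ * (1 / 2 - (s : ℂ) / ‖τ‖))
        = (θ * τ) ^ 2 * (1 / 4 - (s : ℂ) ^ 2 / (‖τ‖ : ℂ) ^ 2) := by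
      field_simp
      ring
    rw [this, hs2']
    have h4 : (1 / 4 - ((‖τ‖ : ℂ) ^ 2 / 4 + (‖δ‖ : ℂ)) / (‖τ‖ : ℂ) ^ 2)
        = - (‖δ‖ : ℂ) / (‖τ‖ : ℂ) ^ 2 := by
      field_simp
      ring
    rw [h4, mul_div_assoc', mul_neg, hd]
    field_simp

/-- If `Rt (θ τ) δ = Rt (θ τ) δ'` for all phases `θ` then `‖δ‖ = ‖δ'‖`. -/
theorem norm_eq_of_Rt_phase {τ δ δ' : ℂ} (h : ∀ θ : ℂ, ‖θ‖ = 1 → Rt (θ * τ) δ = Rt (θ * τ) δ') :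
    ‖δ‖ = ‖δ'‖ := by
  have key : ∀ d d' : ℂ, (∀ θ : ℂ, ‖θ‖ = 1 → Rt (θ * τ) d = Rt (θ * τ) d') → ‖d‖ ≤ ‖d'‖ := by
    intro d d' hh
    obtain ⟨θ, hθ, e⟩ := Rt_phase τ d
    have := Rt_le (θ * τ) d'
    rw [← hh θ hθ, e, norm_mul, hθ, one_mul] at this
    have h2 : √(‖τ‖ ^ 2 / 4 + ‖d‖) ≤ √(‖τ‖ ^ 2 / 4 + ‖d'‖) := by linarith
    rw [Real.sqrt_le_sqrt_iff (by positivity)] at h2
    linarith
  exact le_antisymm (key _ _ h) (key _ _ fun θ hθ => (h θ hθ).symm)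

end PR
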