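import Pool.Agent.Helper59.PR.AB4
import Pool.Agent.Helper67.PR.AB8Core
import Pool.Agent.Helper88.PR.AB7
import Pool.Agent.Helper54.PR.TK5

/-!
# Maps preserving the spectral radius of `TS` or `STS`: assembly in all dimensions
-/

namespace PR

open ContinuousLinearMap

section ab10

variable {X : Type*} [NormedAddCommGroup X] [NormedSpace ℂ X] [CompleteSpace X]
variable {Y : Type*} [NormedAddCommGroup Y] [NormedSpace ℂ Y] [CompleteSpace Y]

omit [CompleteSpace X] in
theorem all_smul_of_not_dim2 (h : ¬ Dim2 X) {x0 : X} (hx0 : x0 ≠ 0) (w : X) :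
    ∃ c : ℂ, c • x0 = w := by
  by_contra hc
  push Not at hc
  exact h ⟨![x0, w], (LinearIndependent.pair_iff' hx0).2 hc⟩

omit [CompleteSpace X] in
private theorem scalar_of_not_dim2 [Nontrivial X] (h : ¬ Dim2 X) (T : X →L[ℂ] X) :
    ∃ t : ℂ, T = t • (1 : X →L[ℂ] X) := by
  obtain ⟨x0, hx0⟩ := exists_ne (0 : X)
  obtain ⟨t, ht⟩ := all_smul_of_not_dim2 h hx0 (T x0)
  refine ⟨t, ?_⟩
  ext z
  obtain ⟨c, rfl⟩ := all_smul_of_not_dim2 h hx0 z
  rw [map_smul, ← ht]
  simp [smul_comm c t]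

omit [CompleteSpace X] in
theorem finrank_of_not_dim2 [Nontrivial X] (h : ¬ Dim2 X) : Module.finrank ℂ X = 1 := by
  obtain ⟨x0, hx0⟩ := exists_ne (0 : X)
  exact (finrank_eq_one_iff_of_nonzero' x0 hx0).2 (all_smul_of_not_dim2 h hx0)

/-- the spectral radius of one element is preserved -/
theorem sr_map_ab {n : ℕ} {φ : (X →L[ℂ] X) → (Y →L[ℂ] Y)}
    (h : ∀ T S, sr (φ T * φ S ^ n) = sr (T * S ^ n)) (T : X →L[ℂ] X) : sr (φ T) = sr T := by
  have h1 := h T T
  rw [← pow_succ', ← pow_succ', sr_pow _ (Nat.succ_ne_zero n), sr_pow _ (Nat.succ_ne_zero n)] at h1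
  exact (pow_left_inj₀ (sr_nonneg _) (sr_nonneg _) (Nat.succ_ne_zero n)).1 h1

theorem not_dim2_of_not_dim2 [Nontrivial X] {n : ℕ} (hn : n = 1 ∨ n = 2)
    {φ : (X →L[ℂ] X) → (Y →L[ℂ] Y)} (hs : Function.Surjective φ)
    (h : ∀ T S, sr (φ T * φ S ^ n) = sr (T * S ^ n)) (hX : ¬ Dim2 X) : ¬ Dim2 Y := by
  rintro ⟨v, hv⟩
  obtain ⟨g0, hg0⟩ := exists_dual_fin hv ![0, 1]
  obtain ⟨g, hg⟩ := exists_dual_fin hv ![1, 1]
  have e0 : g0 (v 0) = 0 := by simpa using hg0 0
  have e1 : g0 (v 1) = 1 := by simpa using hg0 1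
  have e2 : g (v 0) = 1 := by simpa using hg 0
  have e3 : g (v 1) = 1 := by simpa using hg 1
  obtain ⟨T, hT⟩ := hs (rk (v 0) g0)
  have h1 : sr T = 0 := by
    rw [← sr_map_ab h T, hT, sr_rk, e0, norm_zero]
  have hT0 : T = 0 := by
    obtain ⟨t, ht⟩ := scalar_of_not_dim2 hX T
    rw [ht, sr_scalar, norm_eq_zero] at h1
    rw [ht, h1, zero_smul]
  obtain ⟨S, hS⟩ := hs (rk (v 1) g)
  have h2 := h T S
  have hid : rk (v 1) g ^ n = rk (v 1) g := by
    rcases hn with rfl | rfl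
    · rw [pow_one]
    · rw [pow_two]
      ext z
      simp [e3]
  rw [hT, hS, hid, sr_mul_rk, rk_apply, e1, one_smul, e2, hT0, zero_mul, sr_zero, norm_one] at h2
  exact one_ne_zero h2

/-- AB10. all dimensions. -/
theorem main_ab [Nontrivial X] [Nontrivial Y] {n : ℕ} (hn : n = 1 ∨ n = 2)
    {φ : (X →L[ℂ] X) → (Y →L[ℂ] Y)} (hs : Function.Surjective φ)
    (h : ∀ T S, sr (φ T * φ S ^ n) = sr (T * S ^ n)) :
    ∃ c : (X →L[ℂ] X) → ℂ, (∀ T, ‖c T‖ = 1) ∧
      (FormI c (fun _ => 0) φ ∨ FormII c (fun _ => 0) φ) := by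
  by_cases hX : Dim2 X
  · rcases ab_orient_of_rec hn hX (fun h => rec_ab hn h) (fun h => rec_ab hn h) hs h with h1 | h1
    · obtain ⟨c, hc, hF⟩ := ab_typeI_of_rec hn hX (fun h => rec_ab hn h) (fun h => rec_ab hn h)
        hs h h1
      exact ⟨c, hc, Or.inl hF⟩
    · obtain ⟨c, hc, hF⟩ := ab_typeII_of_rec hn hX (fun h => rec_ab hn h)
        (fun h => rec_ab hn h) (fun h => rec_ab hn h) hs h h1
      exact ⟨c, hc, Or.inr hF⟩
  · have hY := not_dim2_of_not_dim2 hn hs h hX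
    have fX := finrank_of_not_dim2 hX
    have fY := finrank_of_not_dim2 hY
    have : FiniteDimensional ℂ X := Module.finite_of_finrank_eq_succ fX
    have : FiniteDimensional ℂ Y := Module.finite_of_finrank_eq_succ fY
    let A : X ≃L[ℂ] Y := ContinuousLinearEquiv.ofFinrankEq (fX.trans fY.symm)
    choose t ht using scalar_of_not_dim2 hX
    choose t' ht' using scalar_of_not_dim2 hY
    have hn' : ∀ T, ‖t' (φ T)‖ = ‖t T‖ := by
      intro T
      have h1 := sr_map_ab h T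
      have h2 : sr T = ‖t T‖ := by
        conv_lhs => rw [ht T]
        exact sr_scalar _
      have h3 : sr (φ T) = ‖t' (φ T)‖ := by
        conv_lhs => rw [ht' (φ T)]
        exact sr_scalar _
      rw [← h2, ← h3, h1]
    refine ⟨fun T => if t T = 0 then 1 else t' (φ T) / t T, ?_, Or.inl (Or.inl ⟨A, ?_⟩)⟩
    · intro T
      by_cases h0 : t T = 0
      · simp [h0]
      · simp only [h0, if_false, norm_div, hn']
        exact div_self (norm_ne_zero_iff.2 h0)
    · intro T y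
      have e1 : T (A.symm y) = t T • A.symm y := by
        conv_lhs => rw [ht T]
        simp
      have e2 : φ T y = t' (φ T) • y := by
        conv_lhs => rw [ht' (φ T)]
        simp
      rw [e1, e2, map_smul, A.apply_symm_apply, zero_smul, add_zero, smul_smul]
      congr 1
      by_cases h0 : t T = 0
      · have := hn' T
        rw [h0, norm_zero, norm_eq_zero] at this
        simp [h0, this]
      · simp only [h0, if_false]
        field_simp

end ab10

end PR
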