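import Pool.Agent.Helper40.PR.Defs3
import Pool.Agent.Helper43.PR.TK9

/-!
# Wigner's theorem for unit vectors
-/

namespace PR

open ContinuousLinearMap InnerProductSpace Complex

open scoped ComplexConjugate

section e6w

variable {H : Type*} [NormedAddCommGroup H] [InnerProductSpace ℂ H] [CompleteSpace H]
variable {K : Type*} [NormedAddCommGroup K] [InnerProductSpace ℂ K] [CompleteSpace K]

/-- homogeneous extension of a map of unit vectors -/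
noncomputable def hext (π : H → K) (x : H) : K := (‖x‖ : ℂ) • π ((‖x‖⁻¹ : ℂ) • x)

omit [CompleteSpace H] [CompleteSpace K] in
theorem hext_unit (π : H → K) {x : H} (hx : ‖x‖ = 1) : hext π x = π x := by
  simp [hext, hx]

omit [CompleteSpace H] in
theorem norm_unit {x : H} (hx : x ≠ 0) : ‖(‖x‖⁻¹ : ℂ) • x‖ = 1 := by
  rw [norm_smul, norm_inv, Complex.norm_real, norm_norm]
  exact inv_mul_cancel₀ (norm_ne_zero_iff.2 hx)

omit [CompleteSpace H] [CompleteSpace K] in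
theorem norm_hext {π : H → K} (h1 : ∀ x, ‖x‖ = 1 → ‖π x‖ = 1) (x : H) : ‖hext π x‖ = ‖x‖ := by
  by_cases hx : x = 0
  · simp [hext, hx]
  · rw [hext, norm_smul, h1 _ (norm_unit hx), Complex.norm_real, norm_norm, mul_one]

omit [CompleteSpace H] [CompleteSpace K] in
theorem hext_test {π : H → K}
    (h3 : ∀ x y, ‖x‖ = 1 → ‖y‖ = 1 → ‖inner ℂ (π x) (π y)‖ = ‖inner ℂ x y‖)
    {z : H} (hz : ‖z‖ = 1) (x : H) : ‖inner ℂ (π z) (hext π x)‖ = ‖inner ℂ z x‖ := by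
  by_cases hx : x = 0
  · simp [hext, hx]
  · have hn : (‖x‖ : ℂ) ≠ 0 := by
      rw [Ne, Complex.ofReal_eq_zero]; exact norm_ne_zero_iff.2 hx
    rw [hext, inner_smul_right, norm_mul, h3 _ _ hz (norm_unit hx), ← norm_mul,
      ← inner_smul_right, smul_smul, mul_inv_cancel₀ hn, one_smul]

theorem e_wigner (hH : Dim2 H) {π : H → K} (h1 : ∀ x, ‖x‖ = 1 → ‖π x‖ = 1)
    (h2 : ∀ u : K, ‖u‖ = 1 → ∃ x, ‖x‖ = 1 ∧ ∃ θ : ℂ, ‖θ‖ = 1 ∧ u = θ • π x)
    (h3 : ∀ x y, ‖x‖ = 1 → ‖y‖ = 1 → ‖inner ℂ (π x) (π y)‖ = ‖inner ℂ x y‖) :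
    (∃ U : H ≃ₗᵢ[ℂ] K, ∀ x, ‖x‖ = 1 → ∃ θ : ℂ, ‖θ‖ = 1 ∧ π x = θ • U x) ∨
    (∃ U : H ≃ₛₗᵢ[starRingEnd ℂ] K, ∀ x, ‖x‖ = 1 → ∃ θ : ℂ, ‖θ‖ = 1 ∧ π x = θ • U x) := by
  have hV : ∃ v w : H, LinearIndependent ℂ ![v, w] := by
    obtain ⟨v, hv⟩ := hH
    refine ⟨v 0, v 1, ?_⟩
    have : ![v 0, v 1] = v := by
      ext i; fin_cases i <;> rfl
    rwa [this]
  -- every test vector is seen as a vector of `H`
  have htest : ∀ u : K, ∃ z : H, ∀ x, ‖inner ℂ u (hext π x)‖ = ‖inner ℂ z x‖ := by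
    intro u
    by_cases hu : u = 0
    · exact ⟨0, fun x => by simp [hu]⟩
    · obtain ⟨z, hz, θ, hθ, hz'⟩ := h2 _ (norm_unit hu)
      refine ⟨(‖u‖ : ℂ) • z, fun x => ?_⟩
      have hn : (‖u‖ : ℂ) ≠ 0 := by
        rw [Ne, Complex.ofReal_eq_zero]; exact norm_ne_zero_iff.2 hu
      have hu' : u = ((‖u‖ : ℂ) * θ) • π z := by
        rw [← smul_smul, ← hz', smul_smul, mul_inv_cancel₀ hn, one_smul]
      conv_lhs => rw [hu']
      rw [inner_smul_left, norm_mul, hext_test h3 hz x, inner_smul_left, norm_mul, RCLike.norm_conj,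
        RCLike.norm_conj, norm_mul, hθ, mul_one]
  have h : ∀ (g : K →L[ℂ] ℂ) (v w : H), ∃ a b : ℂ, ‖g (hext π v)‖ = ‖a‖ ∧ ‖g (hext π w)‖ = ‖b‖ ∧
      ∀ s : ℂ, ‖g (hext π (v + s • w))‖ = ‖a + s * b‖ := by
    intro g v w
    obtain ⟨z, hz⟩ := htest ((InnerProductSpace.toDual ℂ K).symm g)
    have hz' : ∀ x, ‖g (hext π x)‖ = ‖inner ℂ z x‖ := by
      intro x
      rw [← hz x, InnerProductSpace.toDual_symm_apply]
    refine ⟨inner ℂ z v, inner ℂ z w, hz' v, hz' w, fun s => ?_⟩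
    rw [hz', inner_add_right, inner_smul_right]
  have h0 : ∀ v : H, v ≠ 0 → hext π v ≠ 0 := by
    intro v hv h
    rw [← norm_eq_zero, norm_hext h1, norm_eq_zero] at h
    exact hv h
  rcases wigner_pairing (hext π) hV h0 h with ⟨A, hA⟩ | ⟨A, hA⟩
  · left
    have hnorm : ∀ x, ‖A x‖ = ‖x‖ := by
      intro x
      obtain ⟨θ, hθ, hx⟩ := hA x
      rw [← norm_hext h1 x, hx, norm_smul, hθ, one_mul]
    have hsurj : Function.Surjective A := by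
      intro u
      by_cases hu : u = 0
      · exact ⟨0, by rw [map_zero, hu]⟩
      · obtain ⟨z, hz, θ, hθ, hz'⟩ := h2 _ (norm_unit hu)
        obtain ⟨θ', hθ', hz''⟩ := hA z
        have hn : (‖u‖ : ℂ) ≠ 0 := by
          rw [Ne, Complex.ofReal_eq_zero]; exact norm_ne_zero_iff.2 hu
        refine ⟨((‖u‖ : ℂ) * θ * θ') • z, ?_⟩
        rw [map_smul, ← smul_smul, ← hz'', hext_unit π hz, ← smul_smul, ← hz', smul_smul,
          mul_inv_cancel₀ hn, one_smul]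
    refine ⟨LinearIsometryEquiv.ofSurjective ⟨A, hnorm⟩ hsurj, fun x hx => ?_⟩
    obtain ⟨θ, hθ, hx'⟩ := hA x
    exact ⟨θ, hθ, by rw [← hext_unit π hx, hx']; rfl⟩
  · right
    have hnorm : ∀ x, ‖A x‖ = ‖x‖ := by
      intro x
      obtain ⟨θ, hθ, hx⟩ := hA x
      rw [← norm_hext h1 x, hx, norm_smul, hθ, one_mul]
    have hsurj : Function.Surjective A := by
      intro u
      by_cases hu : u = 0
      · exact ⟨0, by rw [map_zero, hu]⟩
      · obtain ⟨z, hz, θ, hθ, hz'⟩ := h2 _ (norm_unit hu)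
        obtain ⟨θ', hθ', hz''⟩ := hA z
        have hn : (‖u‖ : ℂ) ≠ 0 := by
          rw [Ne, Complex.ofReal_eq_zero]; exact norm_ne_zero_iff.2 hu
        refine ⟨(starRingEnd ℂ ((‖u‖ : ℂ) * θ * θ')) • z, ?_⟩
        rw [LinearMap.map_smulₛₗ, Complex.conj_conj, ← smul_smul, ← hz'', hext_unit π hz,
          ← smul_smul, ← hz', smul_smul, mul_inv_cancel₀ hn, one_smul]
    refine ⟨LinearIsometryEquiv.ofSurjective ⟨A, hnorm⟩ hsurj, fun x hx => ?_⟩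
    obtain ⟨θ, hθ, hx'⟩ := hA x
    exact ⟨θ, hθ, by rw [← hext_unit π hx, hx']; rfl⟩

end e6w

end PR
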