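import Pool.Agent.Helper28.PR.AB1
import Pool.Agent.Helper51.PR.AB2
import Pool.Agent.Helper65.PR.AB3
import Pool.Agent.Helper41.PR.RKL
import Pool.Agent.Helper26.PR.TK6
import Pool.Agent.Helper55.PR.TK4B

/-!
# Maps preserving the spectral radius of `TS` or `STS`: recognition theorem and assembly
-/

namespace PR

open ContinuousLinearMap

section ab4

variable {X : Type*} [NormedAddCommGroup X] [NormedSpace ℂ X] [CompleteSpace X]

/-- AB4. recognition theorem for the products `TS`, `STS`. -/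
theorem rec_ab {n : ℕ} (hn : n = 1 ∨ n = 2) {A B : X →L[ℂ] X} (h : LPab n A B) :
    ∃ (x y : X) (f g : X →L[ℂ] ℂ), x ≠ 0 ∧ y ≠ 0 ∧ f ≠ 0 ∧ g ≠ 0 ∧ A = rk x f ∧ B = rk y g ∧
      (((∃ c : ℂ, y = c • x) ∧ LinearIndependent ℂ ![f, g]) ∨
        (LinearIndependent ℂ ![x, y] ∧ (∃ c : ℂ, g = c • f))) := by
  obtain ⟨C, hC, ⟨S1, h1A, h1B⟩, ⟨S2, h2B, h2A⟩⟩ := h
  have hA : ¬ ∃ c : ℂ, A = c • B := by
    rintro ⟨c, hc⟩
    apply h2A
    rw [hc, smul_mul_assoc, sr_smul, h2B, mul_zero]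
  have hB : ¬ ∃ c : ℂ, B = c • A := by
    rintro ⟨c, hc⟩
    apply h1B
    rw [hc, smul_mul_assoc, sr_smul, h1A, mul_zero]
  have hA0 : A ≠ 0 := fun h0 => hA ⟨0, by rw [h0, zero_smul]⟩
  have hB0 : B ≠ 0 := fun h0 => hB ⟨0, by rw [h0, zero_smul]⟩
  have key : ∃ (x y : X) (f g : X →L[ℂ] ℂ), A = rk x f ∧ B = rk y g ∧
      (((∃ c : ℂ, y = c • x) ∧ LinearIndependent ℂ ![f, g]) ∨
        (LinearIndependent ℂ ![x, y] ∧ (∃ c : ℂ, g = c • f))) := by
    have ht := ab_test1 hn hC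
    by_cases h0 : ∃ y, LinearIndependent ℂ ![A y, B y]
    · obtain ⟨k, hk, hC'⟩ := ab_claim ht h0
      exact rank_one_of_id2 (ab_id2 hn hC hk hC') hA hB
    · push Not at h0
      rcases locally_parallel A B h0 with hc | hc | ⟨u, f, g, hf, hg⟩
      · exact absurd hc hB
      · exact absurd hc hA
      · refine ⟨u, u, f, g, hf, hg, Or.inl ⟨⟨1, by rw [one_smul]⟩, ?_⟩⟩
        have hf0 : f ≠ 0 := by
          rintro rfl
          apply hA0
          rw [hf]
          ext z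
          simp
        rw [LinearIndependent.pair_iff' hf0]
        intro a ha
        apply hB
        refine ⟨a, ?_⟩
        rw [hf, hg, ← ha]
        ext z
        simp [mul_smul]
  obtain ⟨x, y, f, g, hf, hg, hh⟩ := key
  refine ⟨x, y, f, g, ?_, ?_, ?_, ?_, hf, hg, hh⟩
  · rintro rfl
    apply hA0
    rw [hf]; ext z; simp
  · rintro rfl
    apply hB0
    rw [hg]; ext z; simp
  · rintro rfl
    apply hA0
    rw [hf]; ext z; simp
  · rintro rfl
    apply hB0
    rw [hg]; ext z; simp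

end ab4

end PR
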